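import Pool.Agent.Helper7.PX.Goals
import Pool.Agent.Helper88.TU.Size
import Pool.Agent.Helper88.CG.VP
import Pool.Agent.Helper33.RR.GT
import Pool.Agent.Helper49.GM.TS

/-!
# Packet PB of project PX (helper7): two primes at amplified points, upper bound
-/

set_option autoImplicit false

open Finset Filter Topology

open scoped Classical

namespace Pool.Agent.Helper30.PX

open Pool.Agent.Helper88.PP (pr Rg om Sf SS uu vv ee LA VV QQ cost)
open Pool.Agent.Helper88.RR (gg ab TB nz Db VM)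
open Pool.Agent.Helper88.GM (NI XI In)
open Pool.Agent.Helper88.CG (pw qE mE)
open Pool.Agent.Helper88.TU (Su)
open Pool.Agent.Helper7.PX

theorem abs_cs {B : Finset ℕ} {t : ℝ} (ht : 1 ≤ t) (i : ℕ) : |cs B t i| ≤ t := by
  unfold cs
  split_ifs
  · rw [abs_of_nonneg (by linarith)]
  · rw [abs_neg, abs_one]
    exact ht

theorem abs_cw {E z : ℕ} {P B : Finset ℕ} {t : ℝ} (ht : 1 ≤ t) (r : P → ℕ) :
    |cw E z B t r| ≤ ∏ i : P, (if r i = 0 then 1 else t * ab (mE E) (qE E) z (r i)) := by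
  unfold cw
  rw [Finset.abs_prod]
  refine Finset.prod_le_prod (fun i _ => abs_nonneg _) fun i _ => ?_
  split_ifs
  · simp
  · rw [abs_mul, abs_of_nonneg (Pool.Agent.Helper33.RR.ab_nonneg _ _ _ _)]
    exact mul_le_mul_of_nonneg_right (abs_cs ht _) (Pool.Agent.Helper33.RR.ab_nonneg _ _ _ _)

theorem prod_mono {E z : ℕ} {P : Finset ℕ} {t T : ℝ} (ht : 0 ≤ t) (hT : t ≤ T) (r : P → ℕ) :
    ∏ i : P, (if r i = 0 then 1 else t * ab (mE E) (qE E) z (r i))
      ≤ ∏ i : P, (if r i = 0 then 1 else T * ab (mE E) (qE E) z (r i)) := by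
  refine Finset.prod_le_prod (fun i _ => ?_) fun i _ => ?_
  · split_ifs
    · exact zero_le_one
    · exact mul_nonneg ht (Pool.Agent.Helper33.RR.ab_nonneg _ _ _ _)
  · split_ifs
    · exact le_rfl
    · exact mul_le_mul_of_nonneg_right hT (Pool.Agent.Helper33.RR.ab_nonneg _ _ _ _)

theorem pb : StmtMJ → StmtFD → StmtFC → StmtTL → StmtPB := by
  intro hMJ hFD hFC hTL
  obtain ⟨c, C, hc, hC, hMJ⟩ := hMJ
  obtain ⟨cK, hcK, hcK1, hTL⟩ := hTL
  obtain ⟨c2, hc2, E2, hVP⟩ := Pool.Agent.Helper88.CG.vp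
  obtain ⟨E4, hsz⟩ := Pool.Agent.Helper88.TU.size
  refine ⟨cK, 2 * C + 1, hcK, hcK1, by linarith, ?_⟩
  intro t ht
  obtain ⟨E1, hTL⟩ := hTL t ht 1 one_pos
  set T : ℝ := (1 + t) ^ 2 with hT
  have htT : t ≤ T := by rw [hT]; nlinarith
  have hT1 : 1 ≤ T := ht.trans htT
  obtain ⟨E3, hMJ⟩ := hMJ T hT1
  refine ⟨max (max E1 E2) (max E3 (max E4 64)), ?_⟩
  intro E z x y hE hS b hb P B hP hB hK j hj j' hj' hjj
  have hE1 : E1 ≤ E := ((le_max_left _ _).trans (le_max_left _ _)).trans hE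
  have hE2 : E2 ≤ E := ((le_max_right _ _).trans (le_max_left _ _)).trans hE
  have hE3 : E3 ≤ E := ((le_max_left _ _).trans (le_max_right _ _)).trans hE
  have hE45 : max E4 64 ≤ E := ((le_max_right _ _).trans (le_max_right _ _)).trans hE
  have hE4 : E4 ≤ E := (le_max_left _ _).trans hE45
  have hE64 : 64 ≤ E := (le_max_right _ _).trans hE45
  obtain ⟨z1, z2, z3, z4, z5, z6, z7, z8, z9, z10, z11, z12, z13, z14⟩ := hsz E z x y hE4 hS
  obtain ⟨v1, v2, v3, v4, v5, v6⟩ := hVP E hE2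
  have hz2 : 2 ≤ z := by omega
  obtain ⟨w1, w2⟩ := v6 z hz2
  have hEy : E ≤ y := by nlinarith
  have hEr : (64 : ℝ) ≤ E := by exact_mod_cast hE64
  have hom0 : 0 ≤ om y z := Pool.Agent.Helper33.RR.om_nonneg y z
  have hqm : qE E * mE E ≤ E / 16 := by
    refine le_trans ?_ v2
    refine Nat.mul_le_mul_right _ ?_
    rw [pow_two]
    exact Nat.le_mul_self _
  have hXI : 0 ≤ XI (x / 32) x (QQ x) := Pool.Agent.Helper49.GM.XI_nonneg _ _ _
  obtain ⟨t1, t2, t3, t4⟩ := hTL E z y hE1 hz2 hEy P B hP hB hK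
  have hPo : (P.card : ℝ) * om y z ≤ (E : ℝ) ^ 2 := by
    have h1 : (P.card : ℝ) * om y z ≤ ((P.card : ℝ) + t ^ 2 * B.card) * om y z := by
      refine mul_le_mul_of_nonneg_right ?_ hom0
      have : (0 : ℝ) ≤ t ^ 2 * B.card := by positivity
      linarith
    have h2 : Real.log E ≤ E := (Real.log_le_sub_one_of_pos (by linarith)).trans (by linarith)
    have h3 : 0 ≤ Real.log E := Real.log_nonneg (by linarith)
    calc (P.card : ℝ) * om y z ≤ cK * (E * Real.log E) := h1.trans hK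
      _ ≤ 1 * (E * Real.log E) := mul_le_mul_of_nonneg_right hcK1 (by positivity)
      _ ≤ 1 * (E * E) := by gcongr
      _ = (E : ℝ) ^ 2 := by ring
  have hjP : j ∈ P := hB hj
  have hjP' : j' ∈ P := hB hj'
  set h : P := ⟨j, hjP⟩ with hh
  set h' : P := ⟨j', hjP'⟩ with hh'
  have hne : h' ≠ h := fun e => hjj (congrArg Subtype.val e).symm
  set a : (P → ℕ) → ℝ := fold E z h' (fold E z h (cw E z B t)) with ha
  have hVV : VV z (mE E) (qE E * mE E) ≠ 0 := by linarith
  have hab : ∀ r ∈ TE E z P, |a r| ≤ T * |cw E z B t r| := by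
    intro r hr
    have h1 := ((hFC E z P B t h r (by linarith) v1 hz2 hVV hr).2 h' hne).1
    have h2 : |cs B t h| ≤ t := abs_cs ht _
    have h3 : |cs B t h'| ≤ t := abs_cs ht _
    calc |a r| ≤ (1 + |cs B t h|) * (1 + |cs B t h'|) * |cw E z B t r| := h1
      _ ≤ (1 + t) * (1 + t) * |cw E z B t r| := by gcongr
      _ = T * |cw E z B t r| := by rw [hT]; ring
  have hBd : Bd E z T a := by
    intro r hr
    refine (hab r hr).trans ?_
    refine mul_le_mul_of_nonneg_left ?_ (by linarith)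
    exact (abs_cw ht r).trans (prod_mono (by linarith) htT r)
  set F : Finset P := {h, h'} with hF
  have hFc : F.card = 2 := Finset.card_pair hne.symm
  have hvan : ∀ r ∈ TE E z P, (∃ i ∈ F, r i ≠ 0) → a r = 0 := by
    intro r hr hex
    refine ((hFC E z P B t h r (by linarith) v1 hz2 hVV hr).2 h' hne).2 ?_
    obtain ⟨i, hi, hri⟩ := hex
    rw [hF, mem_insert, mem_singleton] at hi
    rcases hi with rfl | rfl
    · exact Or.inl hri
    · exact Or.inr hri
  have key := hMJ E z x y hE3 hS b hb P hP hPo F hFc.le a hBd hvan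
  have hGD : GD E z y a ≤ T ^ 2 * DN E z y B t P := by
    unfold DN GD
    rw [Finset.mul_sum]
    refine Finset.sum_le_sum fun r hr => ?_
    have h1 := t3 r hr
    have h2 := hab r hr
    unfold gw at h1 ⊢
    set X : ℝ := gg y z (nz r) * ∏ i : P, (if r i = 0 then 1 else (Nat.totient (r i) : ℝ)) with hX
    have h3 : a r ^ 2 ≤ T ^ 2 * cw E z B t r ^ 2 := by
      rw [← sq_abs (a r), ← sq_abs (cw E z B t r), ← mul_pow]
      exact pow_le_pow_left₀ (abs_nonneg _) h2 2
    rcases le_or_gt 0 X with hX0 | hX0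
    · calc a r ^ 2 * X ≤ T ^ 2 * cw E z B t r ^ 2 * X := mul_le_mul_of_nonneg_right h3 hX0
        _ = _ := by ring
    · have h4 : cw E z B t r ^ 2 = 0 := by
        have h5 := sq_nonneg (cw E z B t r)
        by_contra hne0
        have h6 : 0 < cw E z B t r ^ 2 := lt_of_le_of_ne h5 (Ne.symm hne0)
        have h7 := mul_neg_of_pos_of_neg h6 hX0
        linarith
      rw [h4, mul_zero] at h3
      have h5 : a r ^ 2 = 0 := le_antisymm h3 (sq_nonneg _)
      rw [h5, h4]
      simp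
  have hzM : z ^ (E / 16) ≤ x / 32 := by
    rw [Nat.le_div_iff_mul_le (by norm_num)]
    calc z ^ (E / 16) * 32 = z ^ (E / 16) * 2 ^ 5 := by norm_num
      _ ≤ z ^ (E / 16) * z ^ 5 := Nat.mul_le_mul_left _ (Nat.pow_le_pow_left hz2 5)
      _ = z ^ (E / 16 + 5) := (pow_add _ _ _).symm
      _ ≤ z ^ E := Nat.pow_le_pow_right (by omega) (by omega)
      _ ≤ x := hS.2.1
  have hsum : ∑ n ∈ (NI (x / 32) x (QQ x) b).filter (fun n => (n + j).Prime ∧ (n + j').Prime),
      WN E z y B t P n ^ 2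
      = ∑ n ∈ (NI (x / 32) x (QQ x) b).filter (fun n => ∀ i ∈ F, (n + (i : ℕ)).Prime),
        GW E z y a n ^ 2 := by
    refine Finset.sum_congr ?_ ?_
    · ext n
      simp only [mem_filter, hF, mem_insert, mem_singleton, forall_eq_or_imp, forall_eq, hh, hh']
    · intro n hn
      rw [mem_filter] at hn
      obtain ⟨hn1, hn2⟩ := hn
      have hnx : x / 32 < n := by
        unfold NI at hn1
        rw [mem_filter, mem_Ioc] at hn1
        exact hn1.1.1
      have p1 : (n + (h : ℕ)).Prime := hn2 h (by rw [hF]; exact mem_insert_self _ _)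
      have p2 : (n + (h' : ℕ)).Prime := hn2 h' (by
        rw [hF]; exact mem_insert_of_mem (mem_singleton_self _))
      have e1 := hFD E z y P h n (cw E z B t) v3 v1 hz2 hqm p1 (by omega)
      have e2 := hFD E z y P h' n (fold E z h (cw E z B t)) v3 v1 hz2 hqm p2 (by omega)
      unfold WN
      rw [e1, e2]
  rw [hsum]
  refine key.trans ?_
  rw [hFc]
  have hexp : Real.exp (-(c * E)) ≤ DN E z y B t P := by
    refine le_trans ?_ t1
    rw [Real.exp_le_one_iff]
    have : 0 ≤ c * (E : ℝ) := by positivity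
    linarith
  have hDN0 : 0 ≤ DN E z y B t P := by linarith
  have hT2 : T ^ 2 = (1 + t) ^ 4 := by rw [hT]; ring
  have hT21 : 1 ≤ T ^ 2 := one_le_pow₀ hT1
  have h1 : GD E z y a + Real.exp (-(c * E)) ≤ 2 * T ^ 2 * DN E z y B t P := by
    have : DN E z y B t P ≤ T ^ 2 * DN E z y B t P := by
      calc DN E z y B t P = 1 * DN E z y B t P := (one_mul _).symm
        _ ≤ _ := mul_le_mul_of_nonneg_right hT21 hDN0
    linarith
  have h0 : 0 ≤ C * XI (x / 32) x (QQ x) * (om y z / E) ^ 2 := by positivity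
  calc C * XI (x / 32) x (QQ x) * (om y z / E) ^ 2 * (GD E z y a + Real.exp (-(c * E)))
      ≤ C * XI (x / 32) x (QQ x) * (om y z / E) ^ 2 * (2 * T ^ 2 * DN E z y B t P) :=
        mul_le_mul_of_nonneg_left h1 h0
    _ = 2 * C * T ^ 2 * (XI (x / 32) x (QQ x) * DN E z y B t P) * (om y z / E) ^ 2 := by ring
    _ ≤ (2 * C + 1) * T ^ 2 * (XI (x / 32) x (QQ x) * DN E z y B t P) * (om y z / E) ^ 2 := by
        have h2 : 0 ≤ T ^ 2 * (XI (x / 32) x (QQ x) * DN E z y B t P) * (om y z / E) ^ 2 := by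
          positivity
        nlinarith
    _ = _ := by rw [hT2]

end Pool.Agent.Helper30.PX
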